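import Pool.Agent.W854.HW.Stmts

/-!
# Project HW: the `n`-point motion leaves many windows empty
-/

set_option autoImplicit false

open MeasureTheory ProbabilityTheory Filter Topology Finset Set
open scoped NNReal ENNReal

noncomputable section

namespace Pool.Agent.W762.HW

open Pool.Agent.W854.HW

theorem argmax_single {n : ℕ} (i : Fin n) (x : Fin n → ℝ) : argmaxCard {i} x = 1 := by
  unfold argmaxCard
  rw [Finset.card_eq_one]
  refine ⟨i, ?_⟩
  ext k
  simp only [Finset.mem_filter, Finset.mem_singleton]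
  constructor
  · exact fun h => h.1
  · rintro rfl
    refine ⟨rfl, ?_⟩
    rintro j rfl
    exact le_refl _

theorem betaPlus_one (β : ℝ) (ν : Measure ℝ) : betaPlus β ν 1 = β := by
  simp [betaPlus]

/-- the first moment -/
theorem moment1 {β : ℝ} {ν : Measure ℝ} {n : ℕ} {y : Fin n → ℝ} {Ω : Type} [mΩ : MeasurableSpace Ω]
    {P : Measure Ω} [IsProbabilityMeasure P] {X : ℝ≥0 → Ω → Fin n → ℝ} (h : IsHWMotion β ν y P X)
    (i : Fin n) : ∫ ω, (X 32 ω i - 32 * β) ∂P = y i := by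
  obtain ⟨hX, -, hmax⟩ := h.mart
  have h1 := (hmax {i} (Finset.singleton_nonempty i)).setIntegral_eq (zero_le (a := (32 : ℝ≥0)))
    (s := Set.univ) MeasurableSet.univ
  simp only [Finset.sup'_singleton, argmax_single, betaPlus_one, intervalIntegral.integral_const,
    Measure.restrict_univ, NNReal.coe_zero, sub_zero, NNReal.coe_ofNat,
    smul_eq_mul, zero_mul] at h1
  rw [← h1]
  have h2 : ∫ ω, X 0 ω i ∂P = ∫ _ω, y i ∂P := by
    refine integral_congr_ae ?_
    filter_upwards [h.start] with ω hω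
    rw [hω]
  rw [h2]
  simp

/-- the second moment -/
theorem moment2 {β : ℝ} {ν : Measure ℝ} {n : ℕ} {y : Fin n → ℝ} {Ω : Type} [mΩ : MeasurableSpace Ω]
    {P : Measure Ω} [IsProbabilityMeasure P] {X : ℝ≥0 → Ω → Fin n → ℝ} (h : IsHWMotion β ν y P X)
    (i : Fin n) : Integrable (fun ω => (X 32 ω i - 32 * β) ^ 2) P ∧
      ∫ ω, (X 32 ω i - 32 * β) ^ 2 ∂P = y i ^ 2 + 32 := by
  obtain ⟨hX, hcov, -⟩ := h.mart
  have hint : Integrable (fun ω => (X 32 ω i - 32 * β) ^ 2) P := by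
    have h1 : MemLp (fun ω => X 32 ω i - 32 * β) 2 P := (h.sq 32 i).sub (memLp_const _)
    exact h1.integrable_sq
  refine ⟨hint, ?_⟩
  have h1 := (hcov i i).setIntegral_eq (zero_le (a := (32 : ℝ≥0)))
    (s := Set.univ) MeasurableSet.univ
  simp only [if_true, intervalIntegral.integral_const,
    Measure.restrict_univ, NNReal.coe_zero, sub_zero, NNReal.coe_ofNat,
    smul_eq_mul, mul_zero, mul_one, zero_mul] at h1
  have h2 : ∫ ω, X 0 ω i * X 0 ω i ∂P = y i ^ 2 := by
    have h3 : ∫ ω, X 0 ω i * X 0 ω i ∂P = ∫ _ω, y i ^ 2 ∂P := by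
      refine integral_congr_ae ?_
      filter_upwards [h.start] with ω hω
      rw [hω]
      ring
    rw [h3]
    simp
  rw [h2] at h1
  have h4 : ∫ ω, ((X 32 ω i - β * 32) * (X 32 ω i - β * 32) - 32) ∂P =
      ∫ ω, (X 32 ω i - 32 * β) ^ 2 ∂P - 32 := by
    have h5 : ∀ ω, (X 32 ω i - β * 32) * (X 32 ω i - β * 32) - 32 =
        (X 32 ω i - 32 * β) ^ 2 - 32 := fun ω => by ring
    simp only [h5]
    rw [integral_sub hint (integrable_const _)]
    simp
  rw [h4] at h1
  linarith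

theorem abs_moment {β : ℝ} {ν : Measure ℝ} {n : ℕ} {y : Fin n → ℝ} {Ω : Type}
    [mΩ : MeasurableSpace Ω] {P : Measure Ω} [IsProbabilityMeasure P]
    {X : ℝ≥0 → Ω → Fin n → ℝ} (h : IsHWMotion β ν y P X) (i : Fin n) :
    ∫ ω, |X 32 ω i - y i| ∂P ≤ 6 + 32 * |β| := by
  have m1 := moment1 h i
  obtain ⟨i2, m2⟩ := moment2 h i
  have hi1 : Integrable (fun ω => X 32 ω i) P := (h.sq 32 i).integrable (by norm_num)
  have hi1' : Integrable (fun ω => X 32 ω i - 32 * β) P := hi1.sub (integrable_const _)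
  have hsq : ∫ ω, ((X 32 ω i - 32 * β) ^ 2 - 2 * y i * (X 32 ω i - 32 * β) + y i ^ 2) ∂P = 32 := by
    have e0 : ∫ ω, (((X 32 ω i - 32 * β) ^ 2 - 2 * y i * (X 32 ω i - 32 * β)) + y i ^ 2) ∂P =
        ∫ ω, ((X 32 ω i - 32 * β) ^ 2 - 2 * y i * (X 32 ω i - 32 * β)) ∂P +
          ∫ _ω, y i ^ 2 ∂P :=
      integral_add (i2.sub (hi1'.const_mul _)) (integrable_const _)
    have e1 : ∫ ω, ((X 32 ω i - 32 * β) ^ 2 - 2 * y i * (X 32 ω i - 32 * β)) ∂P =
        ∫ ω, (X 32 ω i - 32 * β) ^ 2 ∂P - ∫ ω, 2 * y i * (X 32 ω i - 32 * β) ∂P :=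
      integral_sub i2 (hi1'.const_mul _)
    have e2 : ∫ _ω : Ω, y i ^ 2 ∂P = y i ^ 2 := by simp
    rw [e0, e1, e2, integral_const_mul, m1, m2]
    ring
  have hint : Integrable (fun ω => (X 32 ω i - 32 * β) ^ 2 - 2 * y i * (X 32 ω i - 32 * β) +
      y i ^ 2) P := (i2.sub (hi1'.const_mul _)).add (integrable_const _)
  calc ∫ ω, |X 32 ω i - y i| ∂P ≤ ∫ ω, (1 / 12 * ((X 32 ω i - 32 * β) ^ 2 -
        2 * y i * (X 32 ω i - 32 * β) + y i ^ 2) + (3 + 32 * |β|)) ∂P := by
        refine integral_mono ((hi1.sub (integrable_const _)).abs)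
          ((hint.const_mul _).add (integrable_const _)) fun ω => ?_
        have e1 : (X 32 ω i - 32 * β) ^ 2 - 2 * y i * (X 32 ω i - 32 * β) + y i ^ 2 =
            |X 32 ω i - 32 * β - y i| ^ 2 := by
          rw [sq_abs]
          ring
        change |X 32 ω i - y i| ≤ 1 / 12 * ((X 32 ω i - 32 * β) ^ 2 -
          2 * y i * (X 32 ω i - 32 * β) + y i ^ 2) + (3 + 32 * |β|)
        rw [e1]
        have e2 : |X 32 ω i - y i| ≤ |X 32 ω i - 32 * β - y i| + 32 * |β| := by
          calc |X 32 ω i - y i| = |(X 32 ω i - 32 * β - y i) + 32 * β| := by ring_nf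
            _ ≤ |X 32 ω i - 32 * β - y i| + |32 * β| := abs_add_le _ _
            _ = _ := by rw [abs_mul]; norm_num
        nlinarith [sq_nonneg (|X 32 ω i - 32 * β - y i| - 6)]
    _ = 1 / 12 * 32 + (3 + 32 * |β|) := by
        rw [integral_add (hint.const_mul _) (integrable_const _), integral_const_mul, hsq]
        simp
    _ ≤ _ := by linarith

theorem main : S_SPLIT → S_GEOM → S_POINT := by
  intro h1 h2 β ν hν n y Ω mΩ P hP X hXM a b hab
  rcases hab.eq_or_lt with hab | hab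
  · have : ENNReal.ofReal ((y b - y a) / 4 - (12 + 64 * |β|)) = 0 := by
      rw [hab]
      exact ENNReal.ofReal_of_nonpos (by have := abs_nonneg β; linarith)
    rw [this]
    exact zero_le
  obtain ⟨hX, -, -⟩ := hXM.mart
  have hXm : ∀ i, Measurable (fun ω => X 32 ω i) := fun i =>
    (measurable_pi_apply i).comp (hX 32).measurable
  have hint : ∀ i, Integrable (fun ω => X 32 ω i) P := fun i =>
    (hXM.sq 32 i).integrable (by norm_num)
  obtain ⟨hg1, -⟩ := h2 n y y a b hab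
  -- the gaps
  have hf : ∀ z ∈ cuts y a b,
      Integrable (fun ω => max (mn (upper y z) (X 32 ω) - mx (lower y z) (X 32 ω) - 1) 0) P ∧
      (mn (upper y z) y - z) / 4 ≤
        ∫ ω, max (mn (upper y z) (X 32 ω) - mx (lower y z) (X 32 ω) - 1) 0 ∂P := by
    intro z hz
    unfold cuts at hz
    rw [Finset.mem_filter, Finset.mem_image] at hz
    obtain ⟨⟨i, -, hi⟩, hz1, hz2⟩ := hz
    have haL : a ∈ lower y z := Finset.mem_filter.2 ⟨Finset.mem_univ _, hz1⟩
    have hbR : b ∈ upper y z := Finset.mem_filter.2 ⟨Finset.mem_univ _, hz2⟩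
    have hiL : i ∈ lower y z := Finset.mem_filter.2 ⟨Finset.mem_univ _, hi.le⟩
    have hL : (lower y z).Nonempty := ⟨a, haL⟩
    have hR : (upper y z).Nonempty := ⟨b, hbR⟩
    obtain ⟨j, hjR, hj⟩ := Finset.exists_mem_eq_inf' hR y
    have hzj : z < y j := (Finset.mem_filter.1 hjR).2
    have key := h1 β ν hν n y Ω mΩ P hP X hXM (lower y z) (upper y z) hL hR i j hiL hjR
      (fun k hk => by rw [hi]; exact (Finset.mem_filter.1 hk).2)
      (fun k hk => by rw [← hj]; exact Finset.inf'_le _ hk) (by rw [hi]; exact hzj)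
    have e1 : mn (upper y z) y = y j := by
      unfold mn
      rw [dif_pos hR, hj]
    have e2 : ∀ ω, max (mn (upper y z) (X 32 ω) - mx (lower y z) (X 32 ω) - 1) 0 =
        max ((upper y z).inf' hR (X 32 ω) - (lower y z).sup' hL (X 32 ω) - 1) 0 := by
      intro ω
      unfold mn mx
      rw [dif_pos hR, dif_pos hL]
    simp only [e2]
    rw [e1]
    rw [hi] at key
    refine ⟨?_, key⟩
    by_contra hni
    rw [integral_undef hni] at key
    linarith
  set G : Ω → ℝ := fun ω =>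
    (volume {c : ℝ | c ∈ Icc (y a) (y b) ∧ ∀ i, X 32 ω i ∉ Icc c (c + 1)}).toReal with hG
  -- the product set
  set S : Set (Ω × ℝ) := {p | p.2 ∈ Icc (y a) (y b) ∧ ∀ i, X 32 p.1 i ∉ Icc p.2 (p.2 + 1)} with hS
  have hSm : MeasurableSet S := by
    have e : S = (Prod.snd ⁻¹' Icc (y a) (y b)) ∩ ⋂ i, ({p : Ω × ℝ | p.2 ≤ X 32 p.1 i} ∩
        {p : Ω × ℝ | X 32 p.1 i ≤ p.2 + 1})ᶜ := by
      ext p
      simp only [hS, Set.mem_ofPred_eq, Set.mem_inter_iff, Set.mem_preimage, Set.mem_iInter,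
        Set.mem_compl_iff, Set.mem_Icc]
    rw [e]
    refine (measurable_snd measurableSet_Icc).inter (MeasurableSet.iInter fun i => ?_)
    exact ((measurableSet_le measurable_snd ((hXm i).comp measurable_fst)).inter
      (measurableSet_le ((hXm i).comp measurable_fst) (measurable_snd.add_const 1))).compl
  have hvm : Measurable fun ω => volume (Prod.mk ω ⁻¹' S) := measurable_measure_prodMk_left hSm
  have hvle : ∀ ω, volume (Prod.mk ω ⁻¹' S) ≤ ENNReal.ofReal (y b - y a) := by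
    intro ω
    rw [← Real.volume_Icc]
    exact measure_mono fun c hc => hc.1
  have hvtop : ∀ ω, volume (Prod.mk ω ⁻¹' S) < ⊤ := fun ω => (hvle ω).trans_lt
    ENNReal.ofReal_lt_top
  have hGe : ∀ ω, G ω = (volume (Prod.mk ω ⁻¹' S)).toReal := fun ω => rfl
  have hGi : ∫ ω, G ω ∂P = (∫⁻ ω, volume (Prod.mk ω ⁻¹' S) ∂P).toReal := by
    simp only [hGe]
    exact integral_toReal hvm.aemeasurable (Filter.Eventually.of_forall hvtop)
  have hfin : ∫⁻ ω, volume (Prod.mk ω ⁻¹' S) ∂P ≠ ⊤ := by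
    have hle : ∫⁻ ω, volume (Prod.mk ω ⁻¹' S) ∂P ≤ ENNReal.ofReal (y b - y a) :=
      (lintegral_mono (μ := P) hvle).trans_eq (by simp)
    exact ne_top_of_le_ne_top ENNReal.ofReal_ne_top hle
  have hGint : Integrable G P := by
    simp only [hG]
    exact integrable_toReal_of_lintegral_ne_top hvm.aemeasurable hfin
  have hma : Integrable (fun ω => max (y a - X 32 ω a) 0) P :=
    ((integrable_const _).sub (hint a)).sup (integrable_const 0)
  have hmb : Integrable (fun ω => max (X 32 ω b - y b) 0) P :=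
    ((hint b).sub (integrable_const _)).sup (integrable_const 0)
  have hsumi : Integrable (fun ω => ∑ z ∈ cuts y a b,
      max (mn (upper y z) (X 32 ω) - mx (lower y z) (X 32 ω) - 1) 0) P :=
    integrable_finsetSum _ fun z hz => (hf z hz).1
  have hmain : (y b - y a) / 4 - (12 + 64 * |β|) ≤ ∫ ω, G ω ∂P := by
    have k1 : ∫ ω, (∑ z ∈ cuts y a b,
        max (mn (upper y z) (X 32 ω) - mx (lower y z) (X 32 ω) - 1) 0 -
        max (y a - X 32 ω a) 0 - max (X 32 ω b - y b) 0) ∂P ≤ ∫ ω, G ω ∂P :=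
      integral_mono ((hsumi.sub hma).sub hmb) hGint fun ω => (h2 n y (X 32 ω) a b hab).2
    have k0 : ∫ ω, ((∑ z ∈ cuts y a b,
        max (mn (upper y z) (X 32 ω) - mx (lower y z) (X 32 ω) - 1) 0 -
        max (y a - X 32 ω a) 0) - max (X 32 ω b - y b) 0) ∂P = ∫ ω, (∑ z ∈ cuts y a b,
        max (mn (upper y z) (X 32 ω) - mx (lower y z) (X 32 ω) - 1) 0 -
        max (y a - X 32 ω a) 0) ∂P - ∫ ω, max (X 32 ω b - y b) 0 ∂P :=
      integral_sub (hsumi.sub hma) hmb
    rw [k0, integral_sub hsumi hma,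
      integral_finsetSum _ fun z hz => (hf z hz).1] at k1
    have k2 : (y b - y a) / 4 ≤ ∑ z ∈ cuts y a b,
        ∫ ω, max (mn (upper y z) (X 32 ω) - mx (lower y z) (X 32 ω) - 1) 0 ∂P := by
      rw [← hg1, Finset.sum_div]
      exact Finset.sum_le_sum fun z hz => (hf z hz).2
    have k3 : ∫ ω, max (y a - X 32 ω a) 0 ∂P ≤ 6 + 32 * |β| := by
      refine le_trans (integral_mono hma ((hint a).sub (integrable_const _)).abs fun ω => ?_)
        (abs_moment hXM a)
      refine max_le ?_ (abs_nonneg _)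
      have := neg_le_abs (X 32 ω a - y a)
      change y a - X 32 ω a ≤ |X 32 ω a - y a|
      linarith
    have k4 : ∫ ω, max (X 32 ω b - y b) 0 ∂P ≤ 6 + 32 * |β| := by
      refine le_trans (integral_mono hmb ((hint b).sub (integrable_const _)).abs fun ω => ?_)
        (abs_moment hXM b)
      exact max_le (le_abs_self _) (abs_nonneg _)
    linarith
  have hswap : ∫⁻ ω, volume (Prod.mk ω ⁻¹' S) ∂P =
      ∫⁻ c in Icc (y a) (y b), P {ω | ∀ i, X 32 ω i ∉ Icc c (c + 1)} := by
    rw [← Measure.prod_apply hSm, Measure.prod_apply_symm hSm,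
      ← lintegral_indicator measurableSet_Icc]
    refine lintegral_congr fun c => ?_
    by_cases hc : c ∈ Icc (y a) (y b)
    · rw [Set.indicator_of_mem hc]
      congr 1
      ext ω
      simp only [hS, Set.mem_preimage, Set.mem_ofPred_eq]
      exact ⟨fun h => h.2, fun h => ⟨hc, h⟩⟩
    · rw [Set.indicator_of_notMem hc]
      have : (fun ω => (ω, c)) ⁻¹' S = ∅ := by
        ext ω
        simp only [hS, Set.mem_preimage, Set.mem_ofPred_eq, Set.mem_empty_iff_false, iff_false]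
        exact fun h => hc h.1
      rw [this, measure_empty]
  rw [← hswap]
  calc ENNReal.ofReal ((y b - y a) / 4 - (12 + 64 * |β|)) ≤ ENNReal.ofReal (∫ ω, G ω ∂P) :=
        ENNReal.ofReal_le_ofReal hmain
    _ = _ := by rw [hGi, ENNReal.ofReal_toReal hfin]

end Pool.Agent.W762.HW
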